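import Mathlib

namespace Pool.Agent.Results.MP_28d996_co.Cap

open Finset

/-- No progression `x, x+d, x+2d` in `A` with `d` a nonzero vector with entries in `{0,1}`. -/
def Free {n : ℕ} (A : Finset (Fin n → ZMod 3)) : Prop :=
  ∀ x d : Fin n → ZMod 3, (∀ i, d i = 0 ∨ d i = 1) → d ≠ 0 →
    ¬ (x ∈ A ∧ x + d ∈ A ∧ x + 2 • d ∈ A)

/-- No progression `x, x+d, x+2d` in `T` with `d` nonzero (a cap set). -/
def IsCap {k : ℕ} (T : Finset (Fin k → ZMod 3)) : Prop :=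
  ∀ x d : Fin k → ZMod 3, d ≠ 0 → ¬ (x ∈ T ∧ x + d ∈ T ∧ x + 2 • d ∈ T)

/-- The largest density of a free set. -/
noncomputable def delta (n : ℕ) : ℝ :=
  ((sSup {m | ∃ A : Finset (Fin n → ZMod 3), Free A ∧ A.card = m} : ℕ) : ℝ) / 3 ^ n

lemma le_sup {n : ℕ} (A : Finset (Fin n → ZMod 3)) (hA : Free A) :
    (A.card : ℝ) / 3 ^ n ≤ delta n := by
  have hb : BddAbove {m | ∃ A : Finset (Fin n → ZMod 3), Free A ∧ A.card = m} :=
    ⟨Fintype.card (Fin n → ZMod 3), by rintro m ⟨A, -, rfl⟩; exact Finset.card_le_univ A⟩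
  have h := le_csSup hb ⟨A, hA, rfl⟩
  exact div_le_div_of_nonneg_right (by exact_mod_cast h) (by positivity)

lemma ne_split {a b : ℕ} (d : Fin (a + b) → ZMod 3) (hd : d ≠ 0) :
    (fun i => d (Fin.castAdd b i)) ≠ 0 ∨ (fun i => d (Fin.natAdd a i)) ≠ 0 := by
  by_contra h
  push Not at h
  refine hd (funext (fun i => ?_))
  refine Fin.addCases (fun j => ?_) (fun j => ?_) i
  · exact congrFun h.1 j
  · exact congrFun h.2 j

lemma prod_free {a b : ℕ} (A : Finset (Fin a → ZMod 3)) (B : Finset (Fin b → ZMod 3))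
    (hA : Free A) (hB : Free B) :
    ∃ C : Finset (Fin (a + b) → ZMod 3), Free C ∧ C.card = A.card * B.card := by
  refine ⟨(A ×ˢ B).map (Fin.appendEquiv a b).toEmbedding, ?_, by simp⟩
  have hm : ∀ x : Fin (a + b) → ZMod 3, x ∈ (A ×ˢ B).map (Fin.appendEquiv a b).toEmbedding →
      (fun i => x (Fin.castAdd b i)) ∈ A ∧ (fun i => x (Fin.natAdd a i)) ∈ B := by
    intro x hx
    rw [Finset.mem_map_equiv, Finset.mem_product] at hx
    exact hx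
  rintro x d h01 hd ⟨h0, h1, h2⟩
  rcases ne_split d hd with h | h
  · exact hA (fun i => x (Fin.castAdd b i)) _ (fun i => h01 _) h
      ⟨(hm _ h0).1, (hm _ h1).1, (hm _ h2).1⟩
  · exact hB (fun i => x (Fin.natAdd a i)) _ (fun i => h01 _) h
      ⟨(hm _ h0).2, (hm _ h1).2, (hm _ h2).2⟩

lemma cap_free {k : ℕ} (T : Finset (Fin k → ZMod 3)) (hT : IsCap T) :
    ∃ C : Finset (Fin (k + k) → ZMod 3), Free C ∧ C.card = T.card * 3 ^ k := by
  classical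
  refine ⟨(T ×ˢ (Finset.univ : Finset (Fin k → ZMod 3))).image
    (fun q => Fin.append q.2 (q.1 - q.2)), ?_, ?_⟩
  · have hm : ∀ x : Fin (k + k) → ZMod 3, x ∈ (T ×ˢ (Finset.univ : Finset (Fin k → ZMod 3))).image
        (fun q => Fin.append q.2 (q.1 - q.2)) →
        (fun i => x (Fin.castAdd k i) + x (Fin.natAdd k i)) ∈ T := by
      intro x hx
      obtain ⟨q, hq, rfl⟩ := Finset.mem_image.1 hx
      have : (fun i => Fin.append q.2 (q.1 - q.2) (Fin.castAdd k i) +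
          Fin.append q.2 (q.1 - q.2) (Fin.natAdd k i)) = q.1 := by
        funext i
        rw [Fin.append_left, Fin.append_right]
        simp
      rw [this]
      exact (Finset.mem_product.1 hq).1
    rintro x d h01 hd ⟨h0, h1, h2⟩
    have hz : ∀ u v : ZMod 3, (u = 0 ∨ u = 1) → (v = 0 ∨ v = 1) → u + v = 0 → u = 0 ∧ v = 0 := by
      decide
    refine hT (fun i => x (Fin.castAdd k i) + x (Fin.natAdd k i))
      (fun i => d (Fin.castAdd k i) + d (Fin.natAdd k i)) (fun h => ?_) ⟨hm _ h0, ?_, ?_⟩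
    · rcases ne_split d hd with g | g
      · exact g (funext (fun i => (hz _ _ (h01 _) (h01 _) (congrFun h i)).1))
      · exact g (funext (fun i => (hz _ _ (h01 _) (h01 _) (congrFun h i)).2))
    · have e : ((fun i => x (Fin.castAdd k i) + x (Fin.natAdd k i)) +
          fun i => d (Fin.castAdd k i) + d (Fin.natAdd k i)) =
          fun i => (x + d) (Fin.castAdd k i) + (x + d) (Fin.natAdd k i) := by
        funext i; simp only [Pi.add_apply]; ring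
      rw [e]; exact hm _ h1
    · have e : ((fun i => x (Fin.castAdd k i) + x (Fin.natAdd k i)) +
          2 • fun i => d (Fin.castAdd k i) + d (Fin.natAdd k i)) =
          fun i => (x + 2 • d) (Fin.castAdd k i) + (x + 2 • d) (Fin.natAdd k i) := by
        funext i; simp only [two_nsmul, Pi.add_apply]; ring
      rw [e]; exact hm _ h2
  · rw [Finset.card_image_of_injective]
    · simp
    · intro q r h
      have h1 : q.2 = r.2 := funext (fun i => by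
        have := congrFun h (Fin.castAdd k i)
        simpa only [Fin.append_left] using this)
      have h2 : q.1 - q.2 = r.1 - r.2 := funext (fun i => by
        have := congrFun h (Fin.natAdd k i)
        simpa only [Fin.append_right] using this)
      rw [h1] at h2
      exact Prod.ext (sub_left_injective h2) h1

def BB : ℕ := 1501981084533505175217084527764514862457908334281281978330789114100828575116089702802548647190797042903687312349530444905079141139592006901433128258112931266913022839248815358570131191686767419568136348834967530242048000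

def pp (a b c d e f : ZMod 3) : Bool :=
  Nat.testBit BB (a.val + 3 * b.val + 9 * c.val + 27 * d.val + 81 * e.val + 243 * f.val)

def LL : List (ℕ × ℕ × ℕ × ℕ × ℕ × ℕ) := [
  (0,0,0,1,1,1), (0,0,0,1,1,2), (0,0,0,1,2,1), (0,0,0,1,2,2), (0,0,0,2,1,1), (0,0,0,2,1,2),
  (0,0,0,2,2,1), (0,0,0,2,2,2), (0,0,1,0,1,1), (0,0,1,0,1,2), (0,0,1,0,2,1), (0,0,1,0,2,2),
  (0,0,2,0,1,1), (0,0,2,0,1,2), (0,0,2,0,2,1), (0,0,2,0,2,2), (0,1,0,1,0,1), (0,1,0,1,0,2),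
  (0,1,0,2,0,1), (0,1,0,2,0,2), (0,1,1,0,1,0), (0,1,1,0,2,0), (0,1,1,1,0,0), (0,1,1,2,0,0),
  (0,1,2,0,1,0), (0,1,2,0,2,0), (0,1,2,1,0,0), (0,1,2,2,0,0), (0,2,0,1,0,1), (0,2,0,1,0,2),
  (0,2,0,2,0,1), (0,2,0,2,0,2), (0,2,1,0,1,0), (0,2,1,0,2,0), (0,2,1,1,0,0), (0,2,1,2,0,0),
  (0,2,2,0,1,0), (0,2,2,0,2,0), (0,2,2,1,0,0), (0,2,2,2,0,0), (1,0,0,1,1,0), (1,0,0,1,2,0),
  (1,0,0,2,1,0), (1,0,0,2,2,0), (1,0,1,0,0,1), (1,0,1,0,0,2), (1,0,1,1,0,0), (1,0,1,2,0,0),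
  (1,0,2,0,0,1), (1,0,2,0,0,2), (1,0,2,1,0,0), (1,0,2,2,0,0), (1,1,0,0,0,1), (1,1,0,0,0,2),
  (1,1,0,0,1,0), (1,1,0,0,2,0), (1,1,1,1,1,1), (1,1,1,1,2,2), (1,1,1,2,1,2), (1,1,1,2,2,1),
  (1,1,2,1,1,2), (1,1,2,1,2,1), (1,1,2,2,1,1), (1,1,2,2,2,2), (1,2,0,0,0,1), (1,2,0,0,0,2),
  (1,2,0,0,1,0), (1,2,0,0,2,0), (1,2,1,1,1,2), (1,2,1,1,2,1), (1,2,1,2,1,1), (1,2,1,2,2,2),
  (1,2,2,1,1,1), (1,2,2,1,2,2), (1,2,2,2,1,2), (1,2,2,2,2,1), (2,0,0,1,1,0), (2,0,0,1,2,0),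
  (2,0,0,2,1,0), (2,0,0,2,2,0), (2,0,1,0,0,1), (2,0,1,0,0,2), (2,0,1,1,0,0), (2,0,1,2,0,0),
  (2,0,2,0,0,1), (2,0,2,0,0,2), (2,0,2,1,0,0), (2,0,2,2,0,0), (2,1,0,0,0,1), (2,1,0,0,0,2),
  (2,1,0,0,1,0), (2,1,0,0,2,0), (2,1,1,1,1,2), (2,1,1,1,2,1), (2,1,1,2,1,1), (2,1,1,2,2,2),
  (2,1,2,1,1,1), (2,1,2,1,2,2), (2,1,2,2,1,2), (2,1,2,2,2,1), (2,2,0,0,0,1), (2,2,0,0,0,2),
  (2,2,0,0,1,0), (2,2,0,0,2,0), (2,2,1,1,1,1), (2,2,1,1,2,2), (2,2,1,2,1,2), (2,2,1,2,2,1),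
  (2,2,2,1,1,2), (2,2,2,1,2,1), (2,2,2,2,1,1), (2,2,2,2,2,2)]

def th (a b : ℕ) : ℕ := (6 - a - b) % 3

lemma chk : LL.all (fun p => LL.all (fun q => decide (p = q) ||
    !(Nat.testBit BB (th p.1 q.1 + 3 * th p.2.1 q.2.1 + 9 * th p.2.2.1 q.2.2.1 +
      27 * th p.2.2.2.1 q.2.2.2.1 + 81 * th p.2.2.2.2.1 q.2.2.2.2.1 +
      243 * th p.2.2.2.2.2 q.2.2.2.2.2)))) = true := by
  decide +kernel

lemma pp_mem0 : ∀ a b c d e f : ZMod 3, pp a b c d e f = true →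
    LL.any (fun p => decide (p = (a.val, b.val, c.val, d.val, e.val, f.val))) = true := by
  decide +kernel

lemma pp_mem (a b c d e f : ZMod 3) (h : pp a b c d e f = true) :
    (a.val, b.val, c.val, d.val, e.val, f.val) ∈ LL := by
  obtain ⟨p, hp, he⟩ := List.any_eq_true.1 (pp_mem0 a b c d e f h)
  rw [← of_decide_eq_true he]
  exact hp

lemma pp_cap (a b c d e f : ZMod 3) (h0 : pp a b c d e f = true) (u v w x y z : ZMod 3)
    (h1 : pp (a + u) (b + v) (c + w) (d + x) (e + y) (f + z) = true)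
    (h2 : pp (a + (u + u)) (b + (v + v)) (c + (w + w)) (d + (x + x)) (e + (y + y)) (f + (z + z))
      = true) : u = 0 ∧ v = 0 ∧ w = 0 ∧ x = 0 ∧ y = 0 ∧ z = 0 := by
  have e1 : ∀ a u : ZMod 3, th a.val (a + u).val = (a + (u + u)).val := by decide
  have e2 : ∀ a u : ZMod 3, a.val = (a + u).val → u = 0 := by decide
  have h := List.all_eq_true.1 (List.all_eq_true.1 chk _ (pp_mem _ _ _ _ _ _ h0)) _
    (pp_mem _ _ _ _ _ _ h1)
  simp only [e1] at h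
  unfold pp at h2
  rw [h2] at h
  simp only [Bool.not_true, Bool.or_false, decide_eq_true_eq, Prod.mk.injEq] at h
  exact ⟨e2 _ _ h.1, e2 _ _ h.2.1, e2 _ _ h.2.2.1, e2 _ _ h.2.2.2.1, e2 _ _ h.2.2.2.2.1,
    e2 _ _ h.2.2.2.2.2⟩

lemma pp_card : (Finset.univ.filter (fun q : ZMod 3 × ZMod 3 × ZMod 3 × ZMod 3 × ZMod 3 × ZMod 3 =>
    pp q.1 q.2.1 q.2.2.1 q.2.2.2.1 q.2.2.2.2.1 q.2.2.2.2.2 = true)).card = 112 := by
  decide +kernel

lemma cap112 : ∃ T : Finset (Fin 6 → ZMod 3), IsCap T ∧ 112 ≤ T.card := by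
  refine ⟨Finset.univ.filter (fun x => pp (x 0) (x 1) (x 2) (x 3) (x 4) (x 5) = true), ?_, ?_⟩
  · rintro x d hd ⟨h0, h1, h2⟩
    simp only [Finset.mem_filter, Finset.mem_univ, true_and, Pi.add_apply, two_nsmul] at h0 h1 h2
    obtain ⟨g0, g1, g2, g3, g4, g5⟩ := pp_cap _ _ _ _ _ _ h0 _ _ _ _ _ _ h1 h2
    refine hd (funext (fun i => ?_))
    fin_cases i
    exacts [g0, g1, g2, g3, g4, g5]
  · rw [← pp_card]
    refine Finset.card_le_card_of_injOn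
      (fun q => ![q.1, q.2.1, q.2.2.1, q.2.2.2.1, q.2.2.2.2.1, q.2.2.2.2.2]) (fun q hq => ?_)
      (fun q _ r _ h => ?_)
    · exact Finset.mem_coe.2 (Finset.mem_filter.2 ⟨Finset.mem_univ _,
        (Finset.mem_filter.1 (Finset.mem_coe.1 hq)).2⟩)
    · exact Prod.ext (congrFun h 0) (Prod.ext (congrFun h 1) (Prod.ext (congrFun h 2)
        (Prod.ext (congrFun h 3) (Prod.ext (congrFun h 4) (congrFun h 5)))))

lemma single (n : ℕ) : ∃ A : Finset (Fin n → ZMod 3), Free A ∧ A.card = 1 := by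
  refine ⟨{0}, ?_, by simp⟩
  rintro x d - hd ⟨h0, h1, -⟩
  rw [Finset.mem_singleton] at h0 h1
  rw [h0, zero_add] at h1
  exact hd h1

lemma iter (r : ℕ) : ∀ j : ℕ, ∃ A : Finset (Fin (r + 12 * j) → ZMod 3), Free A ∧
    (112 * 3 ^ 6) ^ j ≤ A.card := by
  obtain ⟨T, hT, hc⟩ := cap112
  obtain ⟨C, hC, hCc⟩ := cap_free T hT
  intro j
  induction j with
  | zero =>
    obtain ⟨A, h1, h2⟩ := single (r + 12 * 0)
    exact ⟨A, h1, by simp [h2]⟩
  | succ j ih =>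
    obtain ⟨A, h1, h2⟩ := ih
    obtain ⟨D, g1, g2⟩ := prod_free A C h1 hC
    refine ⟨D, g1, ?_⟩
    rw [g2, hCc, pow_succ]
    exact Nat.mul_le_mul h2 (Nat.mul_le_mul_right _ hc)

lemma all_parts :
    (∀ (k : ℕ) (T : Finset (Fin k → ZMod 3)), IsCap T → (T.card : ℝ) / 3 ^ k ≤ delta (k + k)) ∧
    ∃ c : ℝ, 0 < c ∧ ∀ n : ℕ, c * (171 / 200 : ℝ) ^ n ≤ delta n := by
  refine ⟨fun k T hT => ?_, 1 / 3 ^ 11, by positivity, fun n => ?_⟩
  · obtain ⟨C, hC, hc⟩ := cap_free T hT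
    refine le_trans (le_of_eq ?_) (le_sup C hC)
    rw [hc, pow_add]
    push_cast
    field_simp
  · obtain ⟨r, j, hr, rfl⟩ : ∃ r j, r ≤ 11 ∧ n = r + 12 * j :=
      ⟨n % 12, n / 12, by omega, by omega⟩
    obtain ⟨A, h1, h2⟩ := iter r j
    refine le_trans ?_ (le_sup A h1)
    have h3 : ((112 * 3 ^ 6 : ℝ)) ^ j ≤ A.card := by exact_mod_cast h2
    have a1 : (171 / 200 : ℝ) ^ r ≤ 1 := pow_le_one₀ (by norm_num) (by norm_num)
    have a2 : (3 : ℝ) ^ r ≤ 3 ^ 11 := pow_le_pow_right₀ (by norm_num) hr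
    have a3 : ((171 / 200 : ℝ) ^ 12 * 3 ^ 12) ^ j ≤ (112 * 3 ^ 6 : ℝ) ^ j :=
      pow_le_pow_left₀ (by positivity) (by norm_num) j
    rw [le_div_iff₀ (by positivity), pow_add, pow_add, pow_mul, pow_mul]
    calc 1 / 3 ^ 11 * ((171 / 200 : ℝ) ^ r * ((171 / 200) ^ 12) ^ j) * (3 ^ r * (3 ^ 12) ^ j)
        = ((171 / 200 : ℝ) ^ r * (3 ^ r / 3 ^ 11)) * ((171 / 200 : ℝ) ^ 12 * 3 ^ 12) ^ j := by
          rw [mul_pow]; ring
      _ ≤ 1 * (112 * 3 ^ 6 : ℝ) ^ j := by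
          refine mul_le_mul ?_ a3 (by positivity) (by norm_num)
          exact mul_le_one₀ a1 (by positivity) ((div_le_one (by positivity)).2 a2)
      _ ≤ _ := by rw [one_mul]; exact h3

theorem result : ∃ c : ℝ, 0 < c ∧ ∀ n : ℕ, c * (171 / 200 : ℝ) ^ n ≤ delta n :=
  all_parts.2

end Pool.Agent.Results.MP_28d996_co.Cap
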